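import Mathlib

/-!
# The sum of the products of three entries of Shapiro's Catalan triangle with different first indices

`B n k = (k / n) C(2n, n - k)`. We prove a closed form of `∑ B(n,k) B(m,k) B(l,k)` for all `n, m, l ≥ 1`. The mixed
cubic sum `∑ B(n,k)² B(m,k)` of the question is the case in which the three indices are `n`, `max n m`, `min n m`.
-/

namespace Pool.Agent.Results.MP_651eca_nt.ThreeIndices

open Finset

/-- the entries of Shapiro's Catalan triangle -/
def B (n k : ℕ) : ℚ := (k : ℚ) / n * (Nat.choose (2 * n) (n - k) : ℚ)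

/-- central-type binomial coefficients -/
def c (n k : ℕ) : ℚ := (Nat.choose (2 * n) (n + k) : ℚ)

theorem c_succ (n k : ℕ) : ((n : ℚ) - k) * c n k = (n + k + 1) * c n (k + 1) := by
  rcases le_or_gt k n with h | h
  · have h1 := Nat.choose_succ_right_eq (2 * n) (n + k)
    have h2 : 2 * n - (n + k) = n - k := by omega
    rw [h2] at h1
    have h3 : ((Nat.choose (2 * n) (n + k + 1) : ℚ)) * ((n : ℚ) + k + 1) =
        (Nat.choose (2 * n) (n + k) : ℚ) * ((n : ℚ) - k) := by
      have := congrArg (Nat.cast (R := ℚ)) h1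
      push_cast [Nat.cast_sub h] at this
      exact this
    unfold c
    rw [← add_assoc]
    linarith
  · unfold c
    rw [Nat.choose_eq_zero_of_lt (by omega), Nat.choose_eq_zero_of_lt (by omega)]
    simp

theorem c_big {n k : ℕ} (h : n < k) : c n k = 0 := by
  unfold c
  rw [Nat.choose_eq_zero_of_lt (by omega)]
  simp

theorem c_up (l k : ℕ) : (2 * (l : ℚ) + 2) * (2 * l + 1) * c l k =
    (((l : ℚ) + 1) ^ 2 - k ^ 2) * c (l + 1) k := by
  rcases le_or_gt k (l + 1) with h | h
  · have h1 := Nat.add_one_mul_choose_eq (2 * l + 1) (l + k)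
    have h2 := Nat.choose_mul_succ_eq (2 * l) (l + k)
    have h3 : 2 * l + 1 - (l + k) = l + 1 - k := by omega
    rw [h3] at h2
    have h4 := congrArg (Nat.cast (R := ℚ)) h1
    have h5 := congrArg (Nat.cast (R := ℚ)) h2
    push_cast [Nat.cast_sub h] at h4 h5
    have h6 : c (l + 1) k = (Nat.choose (2 * l + 1 + 1) (l + k + 1) : ℚ) := by
      unfold c
      rw [show 2 * (l + 1) = 2 * l + 1 + 1 by ring, show l + 1 + k = l + k + 1 by ring]
    have h7 : c l k = (Nat.choose (2 * l) (l + k) : ℚ) := rfl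
    rw [h6, h7]
    linear_combination (2 * (l : ℚ) + 2) * h5 + ((l : ℚ) + 1 - k) * h4
  · rw [c_big h, c_big (by omega)]
    simp

/-- the sum of `k³ C(2n,n+k) C(2m,m+k) C(2l,l+k)` -/
def F (n m l : ℕ) : ℚ := ∑ k ∈ range (n + 1), (k : ℚ) ^ 3 * c n k * c m k * c l k

theorem F_rec (n m l : ℕ) :
    2 * ((l : ℚ) + 1 + n) * (l + 1 + m) * (n * m + (n + m) * l) * F n m (l + 1) =
      4 * (n * m + (n + m) * (l + 1)) * (l + 1) * (2 * l + 1) * F n m l +
        ((n : ℚ) * m * (l + 1)) ^ 2 * c n 0 * c m 0 * c (l + 1) 0 := by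
  let G : ℕ → ℚ := fun k => (-((n : ℚ) * m + (n + m) * (l + 1)) * k * (k - 1) - n * m * (l + 1)) *
    (n + k) * (m + k) * (l + 1 + k) * (c n k * c m k * c (l + 1) k)
  have key : ∀ k : ℕ, G (k + 1) - G k =
      2 * ((l : ℚ) + 1 + n) * (l + 1 + m) * (n * m + (n + m) * l) *
        ((k : ℚ) ^ 3 * c n k * c m k * c (l + 1) k) -
      4 * (n * m + (n + m) * (l + 1)) * (l + 1) * (2 * l + 1) *
        ((k : ℚ) ^ 3 * c n k * c m k * c l k) := fun k => by
    have h1 := c_succ n k
    have h2 := c_succ m k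
    have h3 := c_succ (l + 1) k
    have h4 := c_up l k
    push_cast at h3
    have h5 : ((n : ℚ) + (k + 1)) * (m + (k + 1)) * (l + 1 + (k + 1)) *
        (c n (k + 1) * c m (k + 1) * c (l + 1) (k + 1)) =
        (((n : ℚ) - k) * c n k) * ((m - k) * c m k) * ((l + 1 - k) * c (l + 1) k) := by
      rw [h1, h2, h3]
      ring
    simp only [G]
    push_cast
    have h6 : (-((n : ℚ) * m + (n + m) * (l + 1)) * (k + 1) * (k + 1 - 1) - n * m * (l + 1)) *
        (n + (k + 1)) * (m + (k + 1)) * (l + 1 + (k + 1)) *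
        (c n (k + 1) * c m (k + 1) * c (l + 1) (k + 1)) =
        (-((n : ℚ) * m + (n + m) * (l + 1)) * (k + 1) * k - n * m * (l + 1)) *
        ((((n : ℚ) - k) * c n k) * ((m - k) * c m k) * ((l + 1 - k) * c (l + 1) k)) := by
      rw [← h5]
      ring
    rw [h6]
    linear_combination (2 * ((n : ℚ) * m + (n + m) * (l + 1)) * k ^ 3 * c n k * c m k) * h4
  have h1 := Finset.sum_range_sub G (n + 1)
  simp only [key, Finset.sum_sub_distrib, ← Finset.mul_sum] at h1
  have h2 : G (n + 1) = 0 := by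
    simp only [G]
    rw [c_big (Nat.lt_succ_self n)]
    ring
  have h3 : G 0 = -((n : ℚ) * m * (l + 1)) ^ 2 * (c n 0 * c m 0 * c (l + 1) 0) := by
    simp only [G]
    push_cast
    ring
  rw [h2, h3] at h1
  unfold F
  linarith

/-- the inner sum -/
def A (n m l : ℕ) : ℚ := ∑ j ∈ range l, (Nat.choose (m + j) m : ℚ) * (Nat.choose (n + j) (n - 1) : ℚ)

theorem F_eq {n m : ℕ} (hn : 1 ≤ n) (hm : 1 ≤ m) (l : ℕ) :
    F n m l = 1 / 2 * c n 0 * c m 0 * c l 0 * ((n : ℚ) * m * l -
      m * (n * m + (n + m) * l) / ((Nat.choose (n + l) n : ℚ) * (Nat.choose (m + l) m : ℚ)) * A n m l) := by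
  have n0 : (0 : ℚ) < n := by exact_mod_cast hn
  have m0 : (0 : ℚ) < m := by exact_mod_cast hm
  induction l with
  | zero =>
    have : F n m 0 = 0 := by
      unfold F
      refine Finset.sum_eq_zero fun k _ => ?_
      rcases Nat.eq_zero_or_pos k with rfl | h
      · simp
      · rw [c_big h]
        ring
    rw [this]
    simp [A]
  | succ l ih =>
    have l0 : (0 : ℚ) ≤ l := Nat.cast_nonneg l
    have hrec := F_rec n m l
    have hc : c (l + 1) 0 * (l + 1) = 2 * (2 * l + 1) * c l 0 := by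
      have := c_up l 0
      push_cast at this
      have h1 : ((l : ℚ) + 1) ≠ 0 := by positivity
      refine mul_left_cancel₀ h1 ?_
      linear_combination -this
    have hC : ∀ p : ℕ, (Nat.choose (p + (l + 1)) p : ℚ) * (l + 1) = (p + l + 1) * (Nat.choose (p + l) p : ℚ) := by
      intro p
      have := Nat.choose_mul_succ_eq (p + l) p
      have h2 : p + l + 1 - p = l + 1 := by omega
      rw [h2] at this
      have h3 := congrArg (Nat.cast (R := ℚ)) this
      push_cast at h3
      rw [← add_assoc]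
      linarith
    have hD : (Nat.choose (n + l) (n - 1) : ℚ) * (l + 1) = n * (Nat.choose (n + l) n : ℚ) := by
      have := Nat.choose_succ_right_eq (n + l) (n - 1)
      have h2 : n + l - (n - 1) = l + 1 := by omega
      rw [h2, Nat.sub_add_cancel hn] at this
      have h3 := congrArg (Nat.cast (R := ℚ)) this
      push_cast at h3
      linarith
    have hA : A n m (l + 1) = A n m l + (Nat.choose (m + l) m : ℚ) * (Nat.choose (n + l) (n - 1) : ℚ) :=
      Finset.sum_range_succ _ _
    have hp : (0 : ℚ) < (Nat.choose (n + l) n : ℚ) := by exact_mod_cast Nat.choose_pos (by omega)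
    have hq : (0 : ℚ) < (Nat.choose (m + l) m : ℚ) := by exact_mod_cast Nat.choose_pos (by omega)
    have hl1 : ((l : ℚ) + 1) ≠ 0 := by positivity
    have e1 : c (l + 1) 0 = 2 * (2 * l + 1) * c l 0 / (l + 1) := by
      rw [eq_div_iff hl1]; exact hc
    have e2 : (Nat.choose (n + (l + 1)) n : ℚ) = (n + l + 1) * (Nat.choose (n + l) n : ℚ) / (l + 1) := by
      rw [eq_div_iff hl1]; exact hC n
    have e3 : (Nat.choose (m + (l + 1)) m : ℚ) = (m + l + 1) * (Nat.choose (m + l) m : ℚ) / (l + 1) := by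
      rw [eq_div_iff hl1]; exact hC m
    have e4 : (Nat.choose (n + l) (n - 1) : ℚ) = n * (Nat.choose (n + l) n : ℚ) / (l + 1) := by
      rw [eq_div_iff hl1]; exact hD
    have hX : (2 * ((l : ℚ) + 1 + n) * (l + 1 + m) * (n * m + (n + m) * l)) ≠ 0 := by positivity
    refine mul_left_cancel₀ hX ?_
    rw [hrec, ih, e1, e2, e3, hA, e4]
    push_cast
    generalize (Nat.choose (n + l) n : ℚ) = p at *
    generalize (Nat.choose (m + l) m : ℚ) = q at *
    have hn1 : ((n : ℚ) + l + 1) ≠ 0 := by positivity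
    have hm1 : ((m : ℚ) + l + 1) ≠ 0 := by positivity
    have hp' := hp.ne'
    have hq' := hq.ne'
    field_simp
    ring

theorem B_eq {n k : ℕ} (h : k ≤ n) : B n k = (k : ℚ) / n * c n k := by
  unfold B c
  rw [← Nat.choose_symm_of_eq_add (show 2 * n = (n + k) + (n - k) by omega)]

theorem sum_eq {n m l : ℕ} :
    ∑ k ∈ Icc 1 (min n (min m l)), B n k * B m k * B l k = F n m l / (n * m * l) := by
  unfold F
  rw [Finset.sum_div]
  have h1 : Icc 1 (min n (min m l)) ⊆ range (n + 1) := fun k hk => by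
    rw [mem_Icc] at hk
    rw [mem_range]
    omega
  have h2 : ∑ k ∈ Icc 1 (min n (min m l)), B n k * B m k * B l k =
      ∑ k ∈ Icc 1 (min n (min m l)), (k : ℚ) ^ 3 * c n k * c m k * c l k / (n * m * l) := by
    refine Finset.sum_congr rfl fun k hk => ?_
    rw [mem_Icc] at hk
    rw [B_eq (by omega), B_eq (by omega), B_eq (by omega)]
    ring
  rw [h2]
  refine Finset.sum_subset h1 fun k _ hk => ?_
  rw [mem_Icc] at hk
  rcases Nat.eq_zero_or_pos k with rfl | h
  · simp
  · have : n < k ∨ m < k ∨ l < k := by omega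
    rcases this with h | h | h <;> rw [c_big h] <;> ring

theorem three {n m l : ℕ} (hn : 1 ≤ n) (hm : 1 ≤ m) (hl : 1 ≤ l) :
    ∑ k ∈ Icc 1 (min n (min m l)), B n k * B m k * B l k =
      1 / 2 * (Nat.choose (2 * n) n : ℚ) * (Nat.choose (2 * m) m : ℚ) * (Nat.choose (2 * l) l : ℚ) *
        (1 - ((n : ℚ) * m + n * l + m * l) / (n * l) * ((Nat.choose (n + l) n : ℚ))⁻¹ *
          ((Nat.choose (m + l) m : ℚ))⁻¹ *
          ∑ j ∈ range l, (Nat.choose (m + j) m : ℚ) * (Nat.choose (n + j) (n - 1) : ℚ)) := by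
  rw [sum_eq, F_eq hn hm]
  have n0 : (0 : ℚ) < n := by exact_mod_cast hn
  have m0 : (0 : ℚ) < m := by exact_mod_cast hm
  have l0 : (0 : ℚ) < l := by exact_mod_cast hl
  have e : ∀ p : ℕ, c p 0 = (Nat.choose (2 * p) p : ℚ) := fun p => by
    unfold c
    rw [add_zero]
  rw [e, e, e]
  change _ = _ * _ * _ * _ * (1 - _ / _ * _ * _ * A n m l)
  have hp : (0 : ℚ) < (Nat.choose (n + l) n : ℚ) := by exact_mod_cast Nat.choose_pos (by omega)
  have hq : (0 : ℚ) < (Nat.choose (m + l) m : ℚ) := by exact_mod_cast Nat.choose_pos (by omega)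
  generalize (Nat.choose (n + l) n : ℚ) = p at *
  generalize (Nat.choose (m + l) m : ℚ) = q at *
  generalize A n m l = a at *
  field_simp
  ring

/-- 1. The identity of the question: for all `n, m ≥ 1`, with `r = min n m` and `s = max n m`, the closed form of
`∑ B(n,k)² B(m,k)`.
2. The closed form of `∑ B(n,k) B(m,k) B(l,k)` for all `n, m, l ≥ 1`. -/
theorem result :
    (∀ n m : ℕ, 1 ≤ n → 1 ≤ m →
      ∑ k ∈ Icc 1 (min n m), B n k ^ 2 * B m k =
        1 / 2 * (Nat.choose (2 * n) n : ℚ) ^ 2 * (Nat.choose (2 * m) m : ℚ) *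
          (1 - ((n : ℚ) + 2 * m) / (min n m : ℕ) * ((Nat.choose (n + m) n : ℚ))⁻¹ *
            ((Nat.choose (n + min n m) n : ℚ))⁻¹ *
            ∑ j ∈ range (min n m), (Nat.choose (max n m + j) (max n m) : ℚ) *
              (Nat.choose (n + j) (n - 1) : ℚ))) ∧
    (∀ n m l : ℕ, 1 ≤ n → 1 ≤ m → 1 ≤ l →
      ∑ k ∈ Icc 1 (min n (min m l)), B n k * B m k * B l k =
        1 / 2 * (Nat.choose (2 * n) n : ℚ) * (Nat.choose (2 * m) m : ℚ) * (Nat.choose (2 * l) l : ℚ) *
          (1 - ((n : ℚ) * m + n * l + m * l) / (n * l) * ((Nat.choose (n + l) n : ℚ))⁻¹ *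
            ((Nat.choose (m + l) m : ℚ))⁻¹ *
            ∑ j ∈ range l, (Nat.choose (m + j) m : ℚ) * (Nat.choose (n + j) (n - 1) : ℚ))) := by
  refine ⟨fun n m hn hm => ?_, fun n m l hn hm hl => three hn hm hl⟩
  have n0 : (0 : ℚ) < n := by exact_mod_cast hn
  have m0 : (0 : ℚ) < m := by exact_mod_cast hm
  rcases le_total m n with h | h
  · have h1 := three hn hn hm
    rw [min_eq_right h, max_eq_left h]
    rw [min_eq_right h, min_eq_right h] at h1
    have h2 : ∀ k, B n k ^ 2 * B m k = B n k * B n k * B m k := fun k => by ring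
    simp only [h2]
    rw [h1]
    have h3 : ((n : ℚ) * n + n * m + n * m) / (n * m) = (n + 2 * m) / m := by
      field_simp
      ring
    rw [h3]
    ring
  · have h1 := three hn hm hn
    rw [min_eq_left h, max_eq_right h]
    rw [min_eq_right h, min_self] at h1
    have h2 : ∀ k, B n k ^ 2 * B m k = B n k * B m k * B n k := fun k => by ring
    simp only [h2]
    rw [h1]
    have h3 : ((n : ℚ) * m + n * n + m * n) / (n * n) = (n + 2 * m) / n := by
      field_simp
      ring
    have h4 : (Nat.choose (m + n) m : ℚ) = (Nat.choose (n + m) n : ℚ) := by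
      rw [Nat.choose_symm_add, add_comm m n]
    rw [h3, h4]
    ring

end Pool.Agent.Results.MP_651eca_nt.ThreeIndices
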